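import Pool.Agent.H501Z.WRRA.Build

/-! The complex algebra `A_M`: symmetric subalgebras are representable, the whole algebra is
not weakly representable. -/

set_option autoImplicit false

namespace Pool.Agent.H501Z.WRRA

open At

variable {K : Type}

/-- all colours are rainbow colours -/
def GT : K → Prop := fun _ => True

def cc (x y : Set (At K)) : Set (At K) := {γ | ∃ α ∈ x, ∃ β ∈ y, T GT α β γ}
def vv (x : Set (At K)) : Set (At K) := {γ | cv γ ∈ x}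
def ee : Set (At K) := {γ | ∃ σ, γ = i σ}

def mp (π : K → K) : At K → At K
  | a k => a (π k)
  | a' k => a' (π k)
  | α => α

lemma mp_cv (π : K → K) (α : At K) : mp π (cv α) = cv (mp π α) := by cases α <;> rfl

lemma mp_mp (π : K → K) (hπ : ∀ k, π (π k) = k) (α : At K) : mp π (mp π α) = α := by
  cases α <;> simp [mp, hπ]

lemma F_mp (π : K → K) (hπ : ∀ k, π (π k) = k) {α β γ : At K}
    (h : F GT (mp π α) (mp π β) (mp π γ)) : F GT α β γ := by
  have k1 : ∀ {x y : At K}, mp π x = y → x = mp π y := by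
    rintro x y rfl; rw [mp_mp π hπ]
  rcases h with ⟨σ, e1, e2⟩ | ⟨e1, e2, e3⟩ | ⟨k, _, e1, e2, e3⟩ | ⟨e1, e2, e3⟩ | ⟨e1, e2, e3⟩
  · exact Or.inl ⟨σ, k1 e1, fun e => e2 (by rw [e, mp_cv])⟩
  · exact Or.inr (Or.inl ⟨k1 e1, k1 e2, k1 e3⟩)
  · exact Or.inr (Or.inr (Or.inl ⟨π k, trivial, k1 e1, k1 e2, k1 e3⟩))
  · exact Or.inr (Or.inr (Or.inr (Or.inl ⟨k1 e1, k1 e2, fun e => e3 (by rw [e]; rfl)⟩)))
  · exact Or.inr (Or.inr (Or.inr (Or.inr ⟨k1 e1, k1 e2, k1 e3⟩)))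

lemma T_mp (π : K → K) (hπ : ∀ k, π (π k) = k) {α β γ : At K} (h : T GT α β γ) :
    T GT (mp π α) (mp π β) (mp π γ) := by
  have hs : ∀ x : At K, src (mp π x) = src x := fun x => by cases x <;> rfl
  have ht : ∀ x : At K, tgt (mp π x) = tgt x := fun x => by cases x <;> rfl
  unfold T Cyc at h ⊢
  simp only [← mp_cv, hs, ht]
  obtain ⟨h1, h2, h3, h4, h5, h6, h7, h8, h9⟩ := h
  exact ⟨h1, h2, h3, fun e => h4 (F_mp π hπ e), fun e => h5 (F_mp π hπ e),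
    fun e => h6 (F_mp π hπ e), fun e => h7 (F_mp π hπ e), fun e => h8 (F_mp π hπ e),
    fun e => h9 (F_mp π hπ e)⟩

/-- elements fixed by the colour permutation `π` -/
def Sym (π : K → K) : Set (Set (At K)) := {x | ∀ α, α ∈ x → mp π α ∈ x}

lemma Sym_iff {π : K → K} (hπ : ∀ k, π (π k) = k) {x : Set (At K)} (hx : x ∈ Sym π) (α : At K) :
    mp π α ∈ x ↔ α ∈ x :=
  ⟨fun h => by simpa [mp_mp π hπ] using hx _ h, hx α⟩

lemma Sym_closed {π : K → K} (hπ : ∀ k, π (π k) = k) :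
    (∀ x ∈ Sym π, ∀ y ∈ Sym π, x ⊔ y ∈ Sym π ∧ xᶜ ∈ Sym π ∧ cc x y ∈ Sym π ∧ vv x ∈ Sym π) ∧
      ee ∈ Sym π := by
  refine ⟨fun x hx y hy => ⟨?_, ?_, ?_, ?_⟩, ?_⟩
  · rintro α (h | h)
    · exact Or.inl (hx α h)
    · exact Or.inr (hy α h)
  · intro α h h'
    exact h ((Sym_iff hπ hx α).1 h')
  · rintro γ ⟨α, hα, β, hβ, hT⟩
    exact ⟨_, hx α hα, _, hy β hβ, T_mp π hπ hT⟩
  · intro α h
    show cv (mp π α) ∈ x
    rw [← mp_cv]; exact hx _ h
  · rintro α ⟨σ, rfl⟩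
    exact ⟨σ, rfl⟩

/-- A triple consistent when only the fixed points of `π` are rainbow colours can be
repaired to a triple of the full structure. -/
lemma repair {π : K → K} {α β γ : At K} (h : T (fun k => π k = k) α β γ) :
    T GT α β γ ∨ T GT (mp π α) β γ ∨ T GT α (mp π β) γ := by
  by_cases h0 : T GT α β γ
  · exact Or.inl h0
  right
  obtain ⟨h1, h2, h3, h4, h5, h6, h7, h8, h9⟩ := h
  have key : ∀ x y z : At K, ¬ F (fun k => π k = k) x y z → F GT x y z →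
      ∃ k, π k ≠ k ∧ x = a' k ∧ y = a k ∧ z = b := by
    intro x y z hn hF
    rcases hF with h | h | ⟨k, _, h⟩ | h | h
    · exact absurd (Or.inl h) hn
    · exact absurd (Or.inr (Or.inl h)) hn
    · exact ⟨k, fun hk => hn (Or.inr (Or.inr (Or.inl ⟨k, hk, h⟩))), h⟩
    · exact absurd (Or.inr (Or.inr (Or.inr (Or.inl h)))) hn
    · exact absurd (Or.inr (Or.inr (Or.inr (Or.inr h)))) hn
  have : F GT α β (cv γ) ∨ F GT β (cv γ) α ∨ F GT (cv γ) α β ∨
      F GT (cv (cv γ)) (cv β) (cv α) ∨ F GT (cv β) (cv α) (cv (cv γ)) ∨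
      F GT (cv α) (cv (cv γ)) (cv β) := by
    by_contra hc
    push Not at hc
    exact h0 ⟨h1, h2, h3, hc.1, hc.2.1, hc.2.2.1, hc.2.2.2.1, hc.2.2.2.2.1, hc.2.2.2.2.2⟩
  rcases this with e | e | e | e | e | e
  · obtain ⟨k, hk, rfl, rfl, e3⟩ := key _ _ _ h4 e
    obtain rfl := cv_eq_iff.1 e3
    left; simp [T, Cyc, F, F0, cv, src, tgt, mp, hk, hk.symm]
  · obtain ⟨k, hk, rfl, e2, rfl⟩ := key _ _ _ h5 e
    obtain rfl := cv_eq_iff.1 e2
    right; simp [T, Cyc, F, F0, cv, src, tgt, mp, hk, hk.symm]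
  · obtain ⟨k, hk, e1, rfl, rfl⟩ := key _ _ _ h6 e
    obtain rfl := cv_eq_iff.1 e1
    left; simp [T, Cyc, F, F0, cv, src, tgt, mp, hk, hk.symm]
  · obtain ⟨k, hk, e1, e2, e3⟩ := key _ _ _ h7 e
    rw [cv_cv] at e1
    obtain rfl := e1
    obtain rfl := cv_eq_iff.1 e2
    obtain rfl := cv_eq_iff.1 e3
    right; simp [T, Cyc, F, F0, cv, src, tgt, mp, hk, hk.symm]
  · obtain ⟨k, hk, e1, e2, e3⟩ := key _ _ _ h8 e
    rw [cv_cv] at e3
    obtain rfl := e3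
    obtain rfl := cv_eq_iff.1 e1
    obtain rfl := cv_eq_iff.1 e2
    left; simp [T, Cyc, F, F0, cv, src, tgt, mp, hk, hk.symm]
  · obtain ⟨k, hk, e1, e2, e3⟩ := key _ _ _ h9 e
    rw [cv_cv] at e2
    obtain rfl := e2
    obtain rfl := cv_eq_iff.1 e1
    obtain rfl := cv_eq_iff.1 e3
    left; simp [T, Cyc, F, F0, cv, src, tgt, mp, hk, hk.symm]

/-- The fixed subalgebra of a non-trivial colour permutation is representable. -/
theorem sym_rep [Finite K] {π : K → K} {γ : K} (hγ : π γ ≠ γ) :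
    ∃ h : Set (At K) → Set (ℕ × ℕ), Function.Injective h ∧ h ⊥ = ∅ ∧
      h ee = {p : ℕ × ℕ | p.1 = p.2} ∧
      (∀ x y, h (x ⊓ y) = h x ∩ h y) ∧
      (∀ x, h (vv x) = {p : ℕ × ℕ | (p.2, p.1) ∈ h x}) ∧
      ∀ x ∈ Sym π, ∀ y ∈ Sym π,
        h (cc x y) = {p : ℕ × ℕ | ∃ w : ℕ, (p.1, w) ∈ h x ∧ (w, p.2) ∈ h y} := by
  obtain ⟨L, hG, hW, hS⟩ := exists_rep (G := fun k => π k = k) hγ
  refine ⟨fun x => {p | L p.1 p.2 ∈ x}, ?_, ?_, ?_, ?_, ?_, ?_⟩
  · intro x y hxy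
    ext α
    obtain ⟨t, t', rfl⟩ := hS α
    exact Set.ext_iff.1 hxy (t, t')
  · ext p; simp
  · ext ⟨t, t'⟩
    constructor
    · rintro ⟨σ, hσ⟩
      exact hG.nid t trivial t' trivial σ hσ
    · rintro (rfl : t = t')
      exact hG.diag t trivial
  · intro x y; rfl
  · intro x
    ext ⟨t, t'⟩
    show cv (L t t') ∈ x ↔ L t' t ∈ x
    rw [hG.symm t trivial t' trivial]
  · intro x hx y hy
    ext ⟨t, t'⟩
    constructor
    · rintro ⟨α, hα, β, hβ, hT⟩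
      obtain ⟨w, e1, e2⟩ := hW t t' α β (T_mono (fun _ _ => trivial) hT)
      exact ⟨w, show L t w ∈ x by rw [e1]; exact hα, show L w t' ∈ y by rw [e2]; exact hβ⟩
    · rintro ⟨w, h1, h2⟩
      rcases repair (hG.toT (Set.mem_univ t) (Set.mem_univ w) (Set.mem_univ t')) with e | e | e
      · exact ⟨_, h1, _, h2, e⟩
      · exact ⟨_, hx _ h1, _, h2, e⟩
      · exact ⟨_, h1, _, hy _ h2, e⟩

lemma ax_add (x y z : Set (At K)) : cc (x ⊔ y) z = cc x z ⊔ cc y z := by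
  ext γ
  constructor
  · rintro ⟨α, hα | hα, β, hβ, hT⟩
    · exact Or.inl ⟨α, hα, β, hβ, hT⟩
    · exact Or.inr ⟨α, hα, β, hβ, hT⟩
  · rintro (⟨α, hα, β, hβ, hT⟩ | ⟨α, hα, β, hβ, hT⟩)
    · exact ⟨α, Or.inl hα, β, hβ, hT⟩
    · exact ⟨α, Or.inr hα, β, hβ, hT⟩

lemma ax_id (x : Set (At K)) : cc x ee = x := by
  ext γ
  constructor
  · rintro ⟨α, hα, β, ⟨σ, rfl⟩, hT⟩
    rw [T_id_right hT]; exact hα
  · intro h
    exact ⟨γ, h, _, ⟨_, rfl⟩, T_self_id _ γ⟩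

lemma ax_vv (x : Set (At K)) : vv (vv x) = x := by
  ext γ; simp [vv]

lemma ax_vadd (x y : Set (At K)) : vv (x ⊔ y) = vv x ⊔ vv y := rfl

lemma ax_vc (x y : Set (At K)) : vv (cc x y) = cc (vv y) (vv x) := by
  ext γ
  constructor
  · rintro ⟨α, hα, β, hβ, hT⟩
    exact ⟨cv β, by simpa [vv] using hβ, cv α, by simpa [vv] using hα,
      by simpa using T_conv hT⟩
  · rintro ⟨β, hβ, α, hα, hT⟩
    exact ⟨cv α, hα, cv β, hβ, T_conv hT⟩

lemma ax_tarski (x y : Set (At K)) : cc (vv x) (cc x y)ᶜ ≤ yᶜ := by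
  rintro γ ⟨α, hα, β, hβ, hT⟩ hγ
  exact hβ ⟨cv α, hα, γ, hγ, T_peirce hT⟩

/-- The whole algebra has no weak representation. -/
theorem not_weak [Finite K] (k0 : K) {U : Type} (h : Set (At K) → Set (U × U))
    (hinj : Function.Injective h) (h0 : h ⊥ = ∅)
    (hm : ∀ x y, h (x ⊓ y) = h x ∩ h y)
    (hc : ∀ x y, h (cc x y) = {p : U × U | ∃ w : U, (p.1, w) ∈ h x ∧ (w, p.2) ∈ h y})
    (hv : ∀ x, h (vv x) = {p : U × U | (p.2, p.1) ∈ h x}) : False := by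
  classical
  have mono : ∀ {x y : Set (At K)} {q : U × U}, x ⊆ y → q ∈ h x → q ∈ h y := by
    intro x y q hxy hq
    have : x ⊓ y = x := inf_eq_left.2 hxy
    rw [← this, hm] at hq
    exact hq.2
  have cI : ∀ {x y z : Set (At K)} {t t' t'' : U}, (t, t') ∈ h x → (t', t'') ∈ h y →
      cc x y ⊆ z → (t, t'') ∈ h z := by
    intro x y z t t' t'' h1 h2 h3
    refine mono h3 ?_
    rw [hc]; exact ⟨t', h1, h2⟩
  have cE : ∀ {x y z : Set (At K)} {t t'' : U}, (t, t'') ∈ h z → z ⊆ cc x y →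
      ∃ t', (t, t') ∈ h x ∧ (t', t'') ∈ h y := by
    intro x y z t t'' h1 h2
    have := mono h2 h1
    rw [hc] at this
    exact this
  have vI : ∀ {x z : Set (At K)} {t t' : U}, (t, t') ∈ h x → vv x ⊆ z → (t', t) ∈ h z := by
    intro x z t t' h1 h2
    refine mono h2 ?_
    rw [hv]; exact h1
  have mI : ∀ {x y : Set (At K)} {q : U × U}, q ∈ h x → q ∈ h y → q ∈ h (x ⊓ y) := by
    intro x y q h1 h2
    rw [hm]; exact ⟨h1, h2⟩
  obtain ⟨⟨x, y0⟩, hxy0⟩ : (h {a k0}).Nonempty := by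
    by_contra hne
    rw [Set.not_nonempty_iff_eq_empty, ← h0] at hne
    exact Set.singleton_ne_empty _ (hinj hne)
  have hy : ∀ k, ∃ y, (x, y) ∈ h {a k} ∧ (y, y0) ∈ h {i .Y, b} := by
    intro k
    refine cE hxy0 ?_
    rintro γ rfl
    by_cases e : k = k0
    · subst e
      exact ⟨_, rfl, _, Or.inl rfl, T_self_id _ _⟩
    · refine ⟨_, rfl, _, Or.inr rfl, ?_⟩
      have e' : k0 ≠ k := fun h => e h.symm
      simp [T, Cyc, F, F0, cv, src, tgt, e, e']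
  choose y hy1 hy2 using hy
  have ho : ∀ I : Finset K, ∃ o, (x, o) ∈ h {u} ∧ (o, y0) ∈ h {R} ∧ ∀ k ∈ I, (o, y k) ∈ h {R} := by
    intro I
    induction I using Finset.induction_on with
    | empty =>
      obtain ⟨o, h1, h2⟩ := cE (x := {u}) (y := {R}) hxy0 (by
        rintro γ rfl
        exact ⟨_, rfl, _, rfl, by simp [T, Cyc, F, F0, cv, src, tgt]⟩)
      exact ⟨o, h1, h2, by simp⟩
    | insert k I _ ih =>
      obtain ⟨o, h1, h2, h3⟩ := ih
      have h4 : (o, x) ∈ h {u'} := vI h1 (by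
        intro γ hγ; exact cv_eq_iff.1 hγ)
      have h5 : (o, y k) ∈ h {R, N} := cI h4 (hy1 k) (by
        rintro γ ⟨α, rfl, β, rfl, hT⟩
        have e1 := T_src hT
        have e2 := T_tgt hT
        cases γ <;> simp_all [src, tgt])
      obtain ⟨o', h6, h7⟩ := cE (x := {s}) (y := {R}) h5 (by
        rintro γ (rfl | rfl)
        · exact ⟨_, rfl, _, rfl, by simp [T, Cyc, F, F0, cv, src, tgt]⟩
        · exact ⟨_, rfl, _, rfl, by simp [T, Cyc, F, F0, cv, src, tgt]⟩)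
      have h8 : (o', o) ∈ h {s'} := vI h6 (by
        intro γ hγ; exact cv_eq_iff.1 hγ)
      have hR : cc ({s'} : Set (At K)) {R} ⊆ {R} := by
        rintro γ ⟨α, rfl, β, rfl, hT⟩
        refine eq_R (T_src hT) (T_tgt hT) ?_
        rintro rfl
        exact hT.2.2.2.1 (Or.inr (Or.inr (Or.inr (Or.inr ⟨rfl, rfl, rfl⟩))))
      refine ⟨o', cI h1 h6 ?_, cI h8 h2 hR, ?_⟩
      · rintro γ ⟨α, rfl, β, rfl, hT⟩
        have e1 := T_src hT
        have e2 := T_tgt hT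
        cases γ <;> simp_all [src, tgt]
      · intro j hj
        rcases Finset.mem_insert.1 hj with rfl | hj
        · exact h7
        · exact cI h8 (h3 j hj) hR
  have := Fintype.ofFinite K
  obtain ⟨o, -, h2, h3⟩ := ho Finset.univ
  obtain ⟨w, h4, h5⟩ := cE (x := {N}) (y := {b}) h2 (by
    rintro γ rfl
    exact ⟨_, rfl, _, rfl, by simp [T, Cyc, F, F0, cv, src, tgt]⟩)
  have h6 : (w, o) ∈ h {N'} := vI h4 (by intro γ hγ; exact cv_eq_iff.1 hγ)
  have h7 : ∀ k, (x, w) ∈ h (cc {a k} {b}) := by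
    intro k
    have e1 : (y0, y k) ∈ h {i .Y, b} := vI (hy2 k) (by
      rintro γ (hγ | hγ)
      · exact Or.inl (cv_eq_iff.1 hγ)
      · exact Or.inr (cv_eq_iff.1 hγ))
    have e2 : (w, y k) ∈ h {i .Y, b} := cI h5 e1 (by
      rintro γ ⟨α, rfl, β, rfl | rfl, hT⟩
      · exact Or.inr (T_id_right hT)
      · by_cases e : ∃ σ, γ = i σ
        · obtain ⟨σ, rfl⟩ := e
          have e1 : σ = .Y := T_src hT
          subst e1; exact Or.inl rfl
        · push Not at e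
          refine Or.inr (eq_b (T_src hT) (T_tgt hT) e ?_)
          rintro rfl
          exact hT.2.2.2.1 (Or.inr (Or.inl ⟨rfl, rfl, rfl⟩)))
    have e3 : (w, y k) ∈ h (cc {N'} {R}) := cI h6 (h3 k (Finset.mem_univ k)) subset_rfl
    have e4 : (w, y k) ∈ h {b} := mono (by
      rintro γ ⟨rfl | rfl, α, rfl, β, rfl, hT⟩
      · cases T_id_mid hT
      · rfl) (mI e2 e3)
    have e5 : (y k, w) ∈ h {b} := vI e4 (by intro γ hγ; exact cv_eq_iff.1 hγ)
    exact cI (hy1 k) e5 subset_rfl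
  have h8 : ∀ I : Finset K, (x, w) ∈ h {γ | γ ∈ cc {a k0} {b} ∧ ∀ k ∈ I, γ ∈ cc {a k} {b}} := by
    intro I
    induction I using Finset.induction_on with
    | empty => exact mono (fun γ hγ => ⟨hγ, by simp⟩) (h7 k0)
    | insert k I _ ih =>
      refine mono ?_ (mI ih (h7 k))
      rintro γ ⟨⟨e1, e2⟩, e3⟩
      refine ⟨e1, fun j hj => ?_⟩
      rcases Finset.mem_insert.1 hj with rfl | hj
      · exact e3
      · exact e2 j hj
  have h9 : (x, w) ∈ h ⊥ := by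
    refine mono ?_ (h8 Finset.univ)
    rintro γ ⟨⟨α, rfl, β, rfl, hT⟩, e2⟩
    have e3 := T_src hT
    have e4 := T_tgt hT
    obtain ⟨k, rfl⟩ : ∃ k, γ = a k := by
      cases γ <;> simp_all [src, tgt]
    obtain ⟨α, rfl, β, rfl, hT'⟩ := e2 k (Finset.mem_univ k)
    exact hT'.2.2.2.2.2.1 (Or.inr (Or.inr (Or.inl ⟨k, trivial, rfl, rfl, rfl⟩)))
  rw [h0] at h9
  exact h9

/-- pigeonhole: `n` elements cannot separate all colours -/
lemma exists_sym (n : ℕ) (g : Fin n → Set (At (Fin (4 ^ n + 1)))) :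
    ∃ j k : Fin (4 ^ n + 1), j ≠ k ∧ Set.range g ⊆ Sym (Equiv.swap j k) := by
  classical
  obtain ⟨j, k, hjk, e⟩ := Fintype.exists_ne_map_eq_of_card_lt
    (fun (k : Fin (4 ^ n + 1)) (m : Fin n) => (decide (a k ∈ g m), decide (a' k ∈ g m)))
    (by simp)
  refine ⟨j, k, hjk, ?_⟩
  rintro _ ⟨m, rfl⟩ α hα
  have e1 := congrFun e m
  simp only [Prod.mk.injEq, decide_eq_decide] at e1
  cases α with
  | a l =>
    show a (Equiv.swap j k l) ∈ g m
    rw [Equiv.swap_apply_def]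
    split_ifs with h1 h2
    · subst h1; exact e1.1.1 hα
    · subst h2; exact e1.1.2 hα
    · exact hα
  | a' l =>
    show a' (Equiv.swap j k l) ∈ g m
    rw [Equiv.swap_apply_def]
    split_ifs with h1 h2
    · subst h1; exact e1.2.1 hα
    · subst h2; exact e1.2.2 hα
    · exact hα
  | _ => exact hα

end Pool.Agent.H501Z.WRRA
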