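import Mathlib

/-!
Atom structures for the non-finite-variable axiomatisability of wRRA.

Three sorts: `X` (colourings), `Y` (points, grouped in clusters), `O` (sets of points, directed).
-/

set_option autoImplicit false

namespace Pool.Agent.H501Z.WRRA

inductive Srt | X | Y | O
  deriving DecidableEq, Fintype

inductive At (K : Type)
  | i (σ : Srt) | f | b | d | s | s' | p | a (k : K) | a' (k : K) | u | u' | R | R' | N | N'
  deriving DecidableEq, Fintype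

open At

variable {K : Type}

def cv : At K → At K
  | i σ => i σ | f => f | b => b | d => d | s => s' | s' => s | p => p
  | a k => a' k | a' k => a k | u => u' | u' => u | R => R' | R' => R | N => N' | N' => N

def src : At K → Srt
  | i σ => σ | f => .X | b => .Y | d => .Y | s => .O | s' => .O | p => .O
  | a _ => .X | a' _ => .Y | u => .X | u' => .O | R => .O | R' => .Y | N => .O | N' => .Y

def tgt : At K → Srt
  | i σ => σ | f => .X | b => .Y | d => .Y | s => .O | s' => .O | p => .O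
  | a _ => .Y | a' _ => .X | u => .O | u' => .X | R => .Y | R' => .O | N => .Y | N' => .O

@[simp] lemma cv_cv (α : At K) : cv (cv α) = α := by cases α <;> rfl
@[simp] lemma src_cv (α : At K) : src (cv α) = tgt α := by cases α <;> rfl
@[simp] lemma tgt_cv (α : At K) : tgt (cv α) = src α := by cases α <;> rfl

lemma cv_inj {α β : At K} (h : cv α = cv β) : α = β := by
  rw [← cv_cv α, h, cv_cv]

lemma cv_eq_iff {α β : At K} : cv α = β ↔ α = cv β := by
  constructor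
  · rintro rfl; simp
  · rintro rfl; simp

/-- forbidden cycles without identity atoms -/
def F0 (G : K → Prop) (α β γ : At K) : Prop :=
  (α = b ∧ β = b ∧ γ = d) ∨ (∃ k, G k ∧ α = a' k ∧ β = a k ∧ γ = b) ∨
    (α = s ∧ β = s ∧ γ ≠ s') ∨ (α = s' ∧ β = R ∧ γ = N')

def F (G : K → Prop) (α β γ : At K) : Prop :=
  (∃ σ, α = i σ ∧ γ ≠ cv β) ∨ F0 G α β γ

def Cyc (G : K → Prop) (α β γ : At K) : Prop :=
  tgt α = src β ∧ tgt β = src γ ∧ tgt γ = src α ∧ ¬ F G α β γ ∧ ¬ F G β γ α ∧ ¬ F G γ α β ∧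
    ¬ F G (cv γ) (cv β) (cv α) ∧ ¬ F G (cv β) (cv α) (cv γ) ∧ ¬ F G (cv α) (cv γ) (cv β)

/-- `T G α β γ` : `γ ≤ α ; β`. -/
def T (G : K → Prop) (α β γ : At K) : Prop := Cyc G α β (cv γ)

lemma T_conv {G : K → Prop} {α β γ : At K} (h : T G α β γ) : T G (cv β) (cv α) (cv γ) := by
  simp only [T, Cyc, cv_cv, src_cv, tgt_cv] at h ⊢
  obtain ⟨h1, h2, h3, h4, h5, h6, h7, h8, h9⟩ := h
  exact ⟨h1.symm, h3.symm, h2.symm, h8, h9, h7, h6, h4, h5⟩

lemma T_peirce {G : K → Prop} {α β γ : At K} (h : T G α β γ) : T G (cv α) γ β := by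
  simp only [T, Cyc, cv_cv, src_cv, tgt_cv] at h ⊢
  obtain ⟨h1, h2, h3, h4, h5, h6, h7, h8, h9⟩ := h
  exact ⟨h3.symm, h2.symm, h1.symm, h9, h7, h8, h5, h6, h4⟩

lemma T_id_right {G : K → Prop} {α γ : At K} {σ : Srt} (h : T G α (i σ) γ) : γ = α := by
  have h5 : ¬ F G (i σ) (cv γ) α := h.2.2.2.2.1
  by_contra hne
  exact h5 (Or.inl ⟨σ, rfl, by simpa using fun h => hne h.symm⟩)

lemma T_id_left {G : K → Prop} {β γ : At K} {σ : Srt} (h : T G (i σ) β γ) : γ = β := by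
  have h4 : ¬ F G (i σ) β (cv γ) := h.2.2.2.1
  by_contra hne
  exact h4 (Or.inl ⟨σ, rfl, fun h => hne (cv_inj h)⟩)

lemma T_id_mid {G : K → Prop} {α β : At K} {σ : Srt} (h : T G α β (i σ)) : β = cv α := by
  have h6 : ¬ F G (cv (i σ)) α β := h.2.2.2.2.2.1
  by_contra hne
  exact h6 (Or.inl ⟨σ, rfl, hne⟩)

lemma T_self_id (G : K → Prop) (α : At K) : T G α (i (tgt α)) α := by
  cases α <;> simp [T, Cyc, F, F0, cv, src, tgt]

lemma T_self_cv (G : K → Prop) (α : At K) : T G α (cv α) (i (src α)) := by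
  cases α <;> simp [T, Cyc, F, F0, cv, src, tgt]

lemma T_mono {G G' : K → Prop} (hG : ∀ k, G' k → G k) {α β γ : At K} (h : T G α β γ) :
    T G' α β γ := by
  have key : ∀ x y z : At K, ¬ F G x y z → ¬ F G' x y z := by
    intro x y z hn hF
    apply hn
    rcases hF with h | h | ⟨k, hk, h⟩ | h | h
    · exact Or.inl h
    · exact Or.inr (Or.inl h)
    · exact Or.inr (Or.inr (Or.inl ⟨k, hG k hk, h⟩))
    · exact Or.inr (Or.inr (Or.inr (Or.inl h)))
    · exact Or.inr (Or.inr (Or.inr (Or.inr h)))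
  obtain ⟨h1, h2, h3, h4, h5, h6, h7, h8, h9⟩ := h
  exact ⟨h1, h2, h3, key _ _ _ h4, key _ _ _ h5, key _ _ _ h6, key _ _ _ h7, key _ _ _ h8,
    key _ _ _ h9⟩

lemma eq_b {α : At K} (h1 : src α = .Y) (h2 : tgt α = .Y) (h3 : ∀ σ, α ≠ i σ) (h4 : α ≠ d) :
    α = b := by
  cases α <;> simp_all [src, tgt]

lemma eq_R {α : At K} (h1 : src α = .O) (h2 : tgt α = .Y) (h4 : α ≠ N) : α = R := by
  cases α <;> simp_all [src, tgt]

lemma eq_R' {α : At K} (h1 : src α = .Y) (h2 : tgt α = .O) (h4 : α ≠ N') : α = R' := by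
  cases α <;> simp_all [src, tgt]

/-- A consistent strict atomic network on the node set `D`. -/
structure Good {V : Type} (G : K → Prop) (D : Set V) (l : V → V → At K) : Prop where
  diag : ∀ t ∈ D, ∃ σ, l t t = i σ
  nid : ∀ t ∈ D, ∀ t' ∈ D, ∀ σ, l t t' = i σ → t = t'
  hsrc : ∀ t ∈ D, ∀ t' ∈ D, src (l t t') = src (l t t)
  symm : ∀ t ∈ D, ∀ t' ∈ D, l t' t = cv (l t t')
  nf : ∀ t ∈ D, ∀ t' ∈ D, ∀ t'' ∈ D, ¬ F0 G (l t t') (l t' t'') (l t'' t)

namespace Good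

variable {V : Type} {G : K → Prop} {D : Set V} {l : V → V → At K}

lemma htgt (h : Good G D l) {t t' : V} (ht : t ∈ D) (ht' : t' ∈ D) :
    tgt (l t t') = src (l t' t') := by
  rw [← h.hsrc t' ht' t ht, h.symm t ht t' ht', src_cv]

lemma notF (h : Good G D l) {t t' t'' : V} (ht : t ∈ D) (ht' : t' ∈ D) (ht'' : t'' ∈ D) :
    ¬ F G (l t t') (l t' t'') (l t'' t) := by
  rintro (⟨σ, h1, h2⟩ | h1)
  · have := h.nid t ht t' ht' σ h1
    subst this
    exact h2 (h.symm t ht t'' ht'')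
  · exact h.nf t ht t' ht' t'' ht'' h1

lemma toT (h : Good G D l) {t t' t'' : V} (ht : t ∈ D) (ht' : t' ∈ D) (ht'' : t'' ∈ D) :
    T G (l t t') (l t' t'') (l t t'') := by
  unfold T Cyc
  rw [← h.symm t ht t'' ht'', ← h.symm t'' ht'' t ht, ← h.symm t' ht' t'' ht'',
    ← h.symm t ht t' ht']
  refine ⟨?_, ?_, ?_, h.notF ht ht' ht'', h.notF ht' ht'' ht, h.notF ht'' ht ht',
    h.notF ht ht'' ht', h.notF ht'' ht' ht, h.notF ht' ht ht''⟩
  · rw [h.htgt ht ht', h.hsrc t' ht' t'' ht'']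
  · rw [h.htgt ht' ht'', h.hsrc t'' ht'' t ht]
  · rw [h.htgt ht'' ht, h.hsrc t ht t' ht']

lemma sym_eq (h : Good G D l) {t t' : V} (ht : t ∈ D) (ht' : t' ∈ D) {α : At K}
    (e : l t t' = α) : l t' t = cv α := by
  rw [h.symm t ht t' ht', e]

lemma b_trans (h : Good G D l) {t t' t'' : V} (ht : t ∈ D) (ht' : t' ∈ D) (ht'' : t'' ∈ D)
    (e1 : l t t' = b) (e2 : l t' t'' = b) : t = t'' ∨ l t t'' = b := by
  by_cases e : t = t''
  · exact Or.inl e
  · right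
    apply eq_b
    · rw [h.hsrc t ht t'' ht'', ← h.hsrc t ht t' ht', e1]; rfl
    · rw [h.htgt ht ht'', ← h.htgt ht' ht'', e2]; rfl
    · exact fun σ hσ => e (h.nid t ht t'' ht'' σ hσ)
    · intro hd
      exact h.nf t ht t' ht' t'' ht'' (Or.inl ⟨e1, e2, h.sym_eq ht ht'' hd⟩)

lemma s_trans (h : Good G D l) {t t' t'' : V} (ht : t ∈ D) (ht' : t' ∈ D) (ht'' : t'' ∈ D)
    (e1 : l t t' = s) (e2 : l t' t'' = s) : l t t'' = s := by
  have : l t'' t = s' := by
    by_contra hne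
    exact h.nf t ht t' ht' t'' ht'' (Or.inr (Or.inr (Or.inl ⟨e1, e2, hne⟩)))
  exact h.sym_eq ht'' ht this

lemma s'_trans (h : Good G D l) {t t' t'' : V} (ht : t ∈ D) (ht' : t' ∈ D) (ht'' : t'' ∈ D)
    (e1 : l t t' = s') (e2 : l t' t'' = s') : l t t'' = s' :=
  h.sym_eq ht'' ht (h.s_trans ht'' ht' ht (h.sym_eq ht' ht'' e2) (h.sym_eq ht ht' e1))

lemma R_mono (h : Good G D l) {t t' t'' : V} (ht : t ∈ D) (ht' : t' ∈ D) (ht'' : t'' ∈ D)
    (e1 : l t t' = s') (e2 : l t' t'' = R) : l t t'' = R := by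
  apply eq_R
  · rw [h.hsrc t ht t'' ht'', ← h.hsrc t ht t' ht', e1]; rfl
  · rw [h.htgt ht ht'', ← h.htgt ht' ht'', e2]; rfl
  · intro hN
    exact h.nf t ht t' ht' t'' ht'' (Or.inr (Or.inr (Or.inr ⟨e1, e2, h.sym_eq ht ht'' hN⟩)))

end Good

end Pool.Agent.H501Z.WRRA
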