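import Pool.Agent.H501Z.WRRA.Ext

/-! The step-by-step construction of a representation. -/

set_option autoImplicit false

namespace Pool.Agent.H501Z.WRRA

open At

variable {K : Type}

lemma T_src {G : K → Prop} {α β γ : At K} (h : T G α β γ) : src γ = src α := by
  have := h.2.2.1; simpa using this

lemma T_tgt {G : K → Prop} {α β γ : At K} (h : T G α β γ) : tgt γ = tgt β := by
  have := h.2.1; simpa using this.symm

lemma step {V : Type} {G : K → Prop} {γ : K} (hγ : ¬ G γ) {D : Set V} {l : V → V → At K}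
    (h : Good G D l) {z : V} (hz : z ∉ D) (x y : V) (α β : At K) :
    ∃ l' : V → V → At K, Good G (insert z D) l' ∧ (∀ t ∈ D, ∀ t' ∈ D, l' t t' = l t t') ∧
      (x ∈ D → y ∈ D → T G α β (l x y) → ∃ w ∈ insert z D, l' x w = α ∧ l' w y = β) ∧
      (D = ∅ → l' z z = i .X) := by
  classical
  have ne : ∀ t ∈ D, t ≠ z := fun t ht e => hz (e ▸ ht)
  by_cases H : x ∈ D ∧ y ∈ D ∧ T G α β (l x y) ∧ ¬ ∃ w ∈ D, l x w = α ∧ l w y = β
  · obtain ⟨hx, hy, hT, hw⟩ := H
    have dx : l x x = i (src α) := by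
      obtain ⟨τ, hτ⟩ := h.diag x hx
      have : src (l x x) = src α := by rw [← h.hsrc x hx y hy, T_src hT]
      rw [hτ] at this ⊢
      rw [← this]; rfl
    have dy : l y y = i (tgt β) := by
      obtain ⟨τ, hτ⟩ := h.diag y hy
      have : src (l y y) = tgt β := by rw [← h.htgt hx hy, T_tgt hT]
      rw [hτ] at this ⊢
      rw [← this]; rfl
    have hα : ∀ τ, α ≠ i τ := by
      rintro τ rfl
      exact hw ⟨x, hx, dx, T_id_left hT⟩
    have hβ : ∀ τ, β ≠ i τ := by
      rintro τ rfl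
      exact hw ⟨y, hy, T_id_right hT, dy⟩
    let pr : V → At K := fun t => if t = x then cv α else β
    have px : pr x = cv α := by simp [pr]
    have py : pr y = β := by
      by_cases e : y = x
      · subst e
        rw [dx] at hT
        rw [px, T_id_mid hT]
      · simp [pr, e]
    have hP : ({x, y} : Set V) ⊆ D := by
      rintro t (rfl | rfl) <;> assumption
    have hp : RowOK G {x, y} l (tgt α) pr := by
      apply rowOK_of_T
      · rintro t (rfl | rfl)
        · rw [px, src_cv]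
        · rw [py]; exact hT.1.symm
      · rintro t (rfl | rfl) τ
        · rw [px]; exact fun e => hα τ (cv_eq_iff.1 e)
        · rw [py]; exact hβ τ
      · rintro t (rfl | rfl) t' (rfl | rfl)
        · rw [px, dx, ← tgt_cv]; exact T_self_id G _
        · rw [px, py]; exact T_peirce hT
        · rw [px, py, h.symm t' hx t hy]
          simpa using T_peirce (T_conv hT)
        · rw [py, dy]; exact T_self_id G _
    have hr := rowOK_row h hγ hP hp (by
      rintro t (rfl | rfl) v (rfl | rfl) t' ht' k e1 e2 e3 e4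
      · rw [e1] at e2; cases e2
      · rw [px] at e1; rw [py] at e2
        exact hw ⟨t', ht', by rw [e3, cv_eq_iff.1 e1]; rfl, by rw [h.sym_eq hy ht' e4, e2]; rfl⟩
      · rw [py] at e1; rw [px] at e2
        exact hw ⟨t', ht', by rw [e4, cv_eq_iff.1 e2]; rfl, by rw [h.sym_eq hy ht' e3, e1]; rfl⟩
      · rw [e1] at e2; cases e2)
    refine ⟨_, good_insert h hr hz, fun t ht t' ht' => extL_xy _ _ _ (ne t ht) (ne t' ht'), ?_, ?_⟩
    · intro _ _ _
      refine ⟨z, Or.inl rfl, ?_, ?_⟩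
      · rw [extL_xz _ _ _ (ne x hx), row_mem (by simp), px, cv_cv]
      · rw [extL_zy _ _ _ (ne y hy), row_mem (by simp), py]
    · rintro rfl; exact absurd hx (by simp)
  · have hp : RowOK G (∅ : Set V) l .X (fun _ => f) := by
      apply rowOK_of_T <;> simp
    have hr := rowOK_row h hγ (Set.empty_subset D) hp (by simp)
    refine ⟨_, good_insert h hr hz, fun t ht t' ht' => extL_xy _ _ _ (ne t ht) (ne t' ht'), ?_, ?_⟩
    · intro hx hy hT
      have : ∃ w ∈ D, l x w = α ∧ l w y = β := by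
        by_contra hw
        exact H ⟨hx, hy, hT, hw⟩
      obtain ⟨w, hw, e1, e2⟩ := this
      exact ⟨w, Or.inr hw, by rw [extL_xy _ _ _ (ne x hx) (ne w hw), e1],
        by rw [extL_xy _ _ _ (ne w hw) (ne y hy), e2]⟩
    · intro _; exact extL_zz _ _ _ _

lemma step_nat {G : K → Prop} {γ : K} (hγ : ¬ G γ) (n : ℕ) (l : ℕ → ℕ → At K)
    (h : Good G (Set.Iio n) l) (τ : ℕ × ℕ × At K × At K) :
    ∃ l' : ℕ → ℕ → At K, Good G (Set.Iio (n + 1)) l' ∧ (∀ t < n, ∀ t' < n, l' t t' = l t t') ∧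
      (τ.1 < n → τ.2.1 < n → T G τ.2.2.1 τ.2.2.2 (l τ.1 τ.2.1) →
        ∃ w < n + 1, l' τ.1 w = τ.2.2.1 ∧ l' w τ.2.1 = τ.2.2.2) ∧
      (n = 0 → l' n n = i .X) := by
  have e : insert n (Set.Iio n) = Set.Iio (n + 1) := by
    ext t; simp only [Set.mem_insert_iff, Set.mem_Iio]; omega
  obtain ⟨l', h1, h2, h3, h4⟩ := step hγ h (z := n) (by simp) τ.1 τ.2.1 τ.2.2.1 τ.2.2.2
  rw [e] at h1 h3
  refine ⟨l', h1, h2, h3, ?_⟩
  rintro rfl
  exact h4 (by ext t; simp)

theorem exists_rep [Finite K] {G : K → Prop} {γ : K} (hγ : ¬ G γ) :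
    ∃ L : ℕ → ℕ → At K, Good G Set.univ L ∧
      (∀ x y α β, T G α β (L x y) → ∃ w, L x w = α ∧ L w y = β) ∧ ∀ α, ∃ x y, L x y = α := by
  classical
  have := Fintype.ofFinite K
  have : Nonempty (At K) := ⟨f⟩
  obtain ⟨e, he⟩ := exists_surjective_nat (ℕ × ℕ × At K × At K)
  have h0 : Good G (Set.Iio (0 : ℕ)) (fun _ _ => (f : At K)) := by
    refine ⟨?_, ?_, ?_, ?_, ?_⟩ <;> simp
  let sq : (n : ℕ) → {l : ℕ → ℕ → At K // Good G (Set.Iio n) l} := fun n =>
    Nat.rec ⟨_, h0⟩ (fun n l => ⟨(step_nat hγ n l.1 l.2 (e (Nat.unpair n).1)).choose,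
      (step_nat hγ n l.1 l.2 (e (Nat.unpair n).1)).choose_spec.1⟩) n
  have hs : ∀ n, (∀ t < n, ∀ t' < n, (sq (n + 1)).1 t t' = (sq n).1 t t') ∧
      ((e (Nat.unpair n).1).1 < n → (e (Nat.unpair n).1).2.1 < n →
        T G (e (Nat.unpair n).1).2.2.1 (e (Nat.unpair n).1).2.2.2
          ((sq n).1 (e (Nat.unpair n).1).1 (e (Nat.unpair n).1).2.1) →
        ∃ w < n + 1, (sq (n + 1)).1 (e (Nat.unpair n).1).1 w = (e (Nat.unpair n).1).2.2.1 ∧
          (sq (n + 1)).1 w (e (Nat.unpair n).1).2.1 = (e (Nat.unpair n).1).2.2.2) ∧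
      (n = 0 → (sq (n + 1)).1 n n = i .X) := fun n =>
    (step_nat hγ n (sq n).1 (sq n).2 (e (Nat.unpair n).1)).choose_spec.2
  have coh : ∀ n m, n ≤ m → ∀ t < n, ∀ t' < n, (sq m).1 t t' = (sq n).1 t t' := by
    intro n m hnm t ht t' ht'
    induction m, hnm using Nat.le_induction with
    | base => rfl
    | succ m hm ih => rw [(hs m).1 t (by omega) t' (by omega), ih]
  let L : ℕ → ℕ → At K := fun x y => (sq (max x y + 1)).1 x y
  have hL : ∀ n, ∀ x < n, ∀ y < n, L x y = (sq n).1 x y := by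
    intro n x hx y hy
    exact (coh (max x y + 1) n (by omega) x (by omega) y (by omega)).symm
  have hG : Good G Set.univ L := by
    refine ⟨?_, ?_, ?_, ?_, ?_⟩
    · intro t _
      rw [hL (t + 1) t (by omega) t (by omega)]
      exact (sq (t + 1)).2.diag t (by simp)
    · intro t _ t' _ σ
      rw [hL (t + t' + 1) t (by omega) t' (by omega)]
      exact (sq _).2.nid t (Set.mem_Iio.2 (by omega)) t' (Set.mem_Iio.2 (by omega)) σ
    · intro t _ t' _
      rw [hL (t + t' + 1) t (by omega) t' (by omega), hL (t + t' + 1) t (by omega) t (by omega)]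
      exact (sq _).2.hsrc t (Set.mem_Iio.2 (by omega)) t' (Set.mem_Iio.2 (by omega))
    · intro t _ t' _
      rw [hL (t + t' + 1) t (by omega) t' (by omega), hL (t + t' + 1) t' (by omega) t (by omega)]
      exact (sq _).2.symm t (Set.mem_Iio.2 (by omega)) t' (Set.mem_Iio.2 (by omega))
    · intro t _ t' _ t'' _
      rw [hL (t + t' + t'' + 1) t (by omega) t' (by omega),
        hL (t + t' + t'' + 1) t' (by omega) t'' (by omega),
        hL (t + t' + t'' + 1) t'' (by omega) t (by omega)]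
      exact (sq _).2.nf t (Set.mem_Iio.2 (by omega)) t' (Set.mem_Iio.2 (by omega)) t'' (Set.mem_Iio.2 (by omega))
  have hW : ∀ x y α β, T G α β (L x y) → ∃ w, L x w = α ∧ L w y = β := by
    intro x y α β hT
    obtain ⟨j, hj⟩ := he (x, y, α, β)
    have hn : x + y + 1 ≤ Nat.pair j (x + y + 1) := Nat.right_le_pair _ _
    have h2 := (hs (Nat.pair j (x + y + 1))).2.1
    rw [Nat.unpair_pair, hj] at h2
    generalize Nat.pair j (x + y + 1) = n at hn h2
    obtain ⟨w, hw, e1, e2⟩ := h2 (by show x < n; omega) (by show y < n; omega)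
      (by show T G α β ((sq n).1 x y); rw [← hL n x (by omega) y (by omega)]; exact hT)
    exact ⟨w, by rw [hL (n + 1) x (by omega) w hw]; exact e1,
      by rw [hL (n + 1) w hw y (by omega)]; exact e2⟩
  refine ⟨L, hG, hW, ?_⟩
  have real : ∀ x (α : At K), L x x = i (src α) → ∃ w, L x w = α ∧ L w w = i (tgt α) := by
    intro x α hx
    obtain ⟨w, e1, _⟩ := hW x x α (cv α) (by rw [hx]; exact T_self_cv G α)
    refine ⟨w, e1, ?_⟩
    obtain ⟨τ, hτ⟩ := hG.diag w trivial
    have := hG.htgt (Set.mem_univ x) (Set.mem_univ w)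
    rw [e1, hτ] at this
    rw [hτ, this]; rfl
  have hX : L 0 0 = i .X := by
    rw [hL 1 0 (by omega) 0 (by omega)]; exact (hs 0).2.2 rfl
  obtain ⟨yY, _, hY⟩ := real 0 (a γ) hX
  obtain ⟨yO, _, hO⟩ := real 0 u hX
  intro α
  cases hα : src α with
  | X => obtain ⟨w, e1, _⟩ := real 0 α (by rw [hα]; exact hX); exact ⟨_, _, e1⟩
  | Y => obtain ⟨w, e1, _⟩ := real yY α (by rw [hα]; exact hY); exact ⟨_, _, e1⟩
  | O => obtain ⟨w, e1, _⟩ := real yO α (by rw [hα]; exact hO); exact ⟨_, _, e1⟩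

end Pool.Agent.H501Z.WRRA
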