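import Pool.Agent.H501Z.WRRA.Atoms

/-! One-point extensions of networks. -/

set_option autoImplicit false

namespace Pool.Agent.H501Z.WRRA

open At

variable {K : Type} {V : Type}

structure RowOK (G : K → Prop) (S : Set V) (l : V → V → At K) (σ : Srt) (r : V → At K) :
    Prop where
  rs : ∀ t ∈ S, src (r t) = σ
  rt : ∀ t ∈ S, tgt (r t) = src (l t t)
  ni : ∀ t ∈ S, ∀ τ, r t ≠ i τ
  E1 : ∀ t ∈ S, ∀ t' ∈ S, r t = b → l t t' = b → r t' ≠ d
  C1 : ∀ t ∈ S, ∀ t' ∈ S, ∀ k, r t = a' k → l t t' = a k → G k → r t' ≠ b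
  S1 : ∀ t ∈ S, ∀ t' ∈ S, r t = s → l t t' = s → r t' = s
  M1 : ∀ t ∈ S, ∀ t' ∈ S, r t = s' → l t t' = R → r t' ≠ N
  S2 : ∀ t ∈ S, ∀ t' ∈ S, l t t' = s → r t' = s' → r t = s'
  M2 : ∀ t ∈ S, ∀ t' ∈ S, l t t' = s' → r t' = R' → r t ≠ N'
  E3 : ∀ t ∈ S, ∀ t' ∈ S, r t' = b → r t = b → l t t' ≠ d
  C3 : ∀ t ∈ S, ∀ t' ∈ S, ∀ k, r t' = a k → r t = a k → G k → l t t' ≠ b
  S3 : ∀ t ∈ S, ∀ t' ∈ S, r t' = s' → r t = s → l t t' = s'
  M3 : ∀ t ∈ S, ∀ t' ∈ S, r t' = s → r t = R → l t t' ≠ N'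

lemma rowOK_of_T {G : K → Prop} {S : Set V} {l : V → V → At K} {σ : Srt} {r : V → At K}
    (rs : ∀ t ∈ S, src (r t) = σ) (ni : ∀ t ∈ S, ∀ τ, r t ≠ i τ)
    (hT : ∀ t ∈ S, ∀ t' ∈ S, T G (r t) (l t t') (r t')) : RowOK G S l σ r := by
  have n1 : ∀ t ∈ S, ∀ t' ∈ S, ¬ F0 G (r t) (l t t') (cv (r t')) :=
    fun t ht t' ht' h => (hT t ht t' ht').2.2.2.1 (Or.inr h)
  have n2 : ∀ t ∈ S, ∀ t' ∈ S, ¬ F0 G (l t t') (cv (r t')) (r t) :=
    fun t ht t' ht' h => (hT t ht t' ht').2.2.2.2.1 (Or.inr h)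
  have n3 : ∀ t ∈ S, ∀ t' ∈ S, ¬ F0 G (cv (r t')) (r t) (l t t') :=
    fun t ht t' ht' h => (hT t ht t' ht').2.2.2.2.2.1 (Or.inr h)
  refine ⟨rs, fun t ht => (hT t ht t ht).1, ni, ?_, ?_, ?_, ?_, ?_, ?_, ?_, ?_, ?_, ?_⟩
  · intro t ht t' ht' e1 e2 e3
    exact n1 t ht t' ht' (Or.inl ⟨e1, e2, by rw [e3]; rfl⟩)
  · intro t ht t' ht' k e1 e2 hk e3
    exact n1 t ht t' ht' (Or.inr (Or.inl ⟨k, hk, e1, e2, by rw [e3]; rfl⟩))
  · intro t ht t' ht' e1 e2
    by_contra hne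
    exact n1 t ht t' ht' (Or.inr (Or.inr (Or.inl ⟨e1, e2, fun h => hne (cv_eq_iff.1 h)⟩)))
  · intro t ht t' ht' e1 e2 e3
    exact n1 t ht t' ht' (Or.inr (Or.inr (Or.inr ⟨e1, e2, by rw [e3]; rfl⟩)))
  · intro t ht t' ht' e1 e2
    by_contra hne
    exact n2 t ht t' ht' (Or.inr (Or.inr (Or.inl ⟨e1, by rw [e2]; rfl, hne⟩)))
  · intro t ht t' ht' e1 e2 e3
    exact n2 t ht t' ht' (Or.inr (Or.inr (Or.inr ⟨e1, by rw [e2]; rfl, e3⟩)))
  · intro t ht t' ht' e1 e2 e3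
    exact n3 t ht t' ht' (Or.inl ⟨by rw [e1]; rfl, e2, e3⟩)
  · intro t ht t' ht' k e1 e2 hk e3
    exact n3 t ht t' ht' (Or.inr (Or.inl ⟨k, hk, by rw [e1]; rfl, e2, e3⟩))
  · intro t ht t' ht' e1 e2
    by_contra hne
    exact n3 t ht t' ht' (Or.inr (Or.inr (Or.inl ⟨by rw [e1]; rfl, e2, hne⟩)))
  · intro t ht t' ht' e1 e2 e3
    exact n3 t ht t' ht' (Or.inr (Or.inr (Or.inr ⟨by rw [e1]; rfl, e2, e3⟩)))

open Classical in
/-- the labelling extended by a new node `z` -/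
noncomputable def extL (l : V → V → At K) (z : V) (σ : Srt) (r : V → At K) (x y : V) : At K :=
  if x = z then (if y = z then i σ else r y) else if y = z then cv (r x) else l x y

lemma extL_zz (l : V → V → At K) (z : V) (σ : Srt) (r : V → At K) : extL l z σ r z z = i σ := by
  simp [extL]
lemma extL_zy (l : V → V → At K) {z y : V} (σ : Srt) (r : V → At K) (h : y ≠ z) :
    extL l z σ r z y = r y := by
  simp [extL, h]
lemma extL_xz (l : V → V → At K) {z x : V} (σ : Srt) (r : V → At K) (h : x ≠ z) :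
    extL l z σ r x z = cv (r x) := by
  simp [extL, h]
lemma extL_xy (l : V → V → At K) {z x y : V} (σ : Srt) (r : V → At K) (h : x ≠ z) (h' : y ≠ z) :
    extL l z σ r x y = l x y := by
  simp [extL, h, h']

lemma good_insert {G : K → Prop} {D : Set V} {l : V → V → At K} {σ : Srt} {r : V → At K}
    (h : Good G D l) (hr : RowOK G D l σ r) {z : V} (hz : z ∉ D) :
    Good G (insert z D) (extL l z σ r) := by
  have ne : ∀ t ∈ D, t ≠ z := fun t ht e => hz (e ▸ ht)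
  have nicv : ∀ t ∈ D, ∀ τ, cv (r t) ≠ i τ := fun t ht τ e => hr.ni t ht τ (cv_eq_iff.1 e)
  refine ⟨?_, ?_, ?_, ?_, ?_⟩
  · rintro t (rfl | ht)
    · exact ⟨σ, extL_zz _ _ _ _⟩
    · rw [extL_xy _ _ _ (ne t ht) (ne t ht)]; exact h.diag t ht
  · rintro t (rfl | ht) t' (rfl | ht') τ e
    · rfl
    · rw [extL_zy _ _ _ (ne t' ht')] at e; exact absurd e (hr.ni t' ht' τ)
    · rw [extL_xz _ _ _ (ne t ht)] at e; exact absurd e (nicv t ht τ)
    · rw [extL_xy _ _ _ (ne t ht) (ne t' ht')] at e; exact h.nid t ht t' ht' τ e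
  · rintro t (rfl | ht) t' (rfl | ht')
    · rfl
    · rw [extL_zy _ _ _ (ne t' ht'), extL_zz, hr.rs t' ht']; rfl
    · rw [extL_xz _ _ _ (ne t ht), extL_xy _ _ _ (ne t ht) (ne t ht), src_cv, hr.rt t ht]
    · rw [extL_xy _ _ _ (ne t ht) (ne t' ht'), extL_xy _ _ _ (ne t ht) (ne t ht)]
      exact h.hsrc t ht t' ht'
  · rintro t (rfl | ht) t' (rfl | ht')
    · rw [extL_zz]; rfl
    · rw [extL_zy _ _ _ (ne t' ht'), extL_xz _ _ _ (ne t' ht')]
    · rw [extL_zy _ _ _ (ne t ht), extL_xz _ _ _ (ne t ht), cv_cv]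
    · rw [extL_xy _ _ _ (ne t ht) (ne t' ht'), extL_xy _ _ _ (ne t' ht') (ne t ht)]
      exact h.symm t ht t' ht'
  · rintro t (rfl | ht) t' (rfl | ht') t'' (rfl | ht'')
    · rw [extL_zz]; simp [F0]
    · rw [extL_zz]; simp [F0]
    · rw [extL_zz, extL_zy _ _ _ (ne t' ht'), extL_xz _ _ _ (ne t' ht')]
      generalize r t' = α
      cases α <;> simp [F0, cv]
    · -- z, t', t''
      rw [extL_zy _ _ _ (ne t' ht'), extL_xy _ _ _ (ne t' ht') (ne t'' ht''),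
        extL_xz _ _ _ (ne t'' ht'')]
      rintro (⟨e1, e2, e3⟩ | ⟨k, hk, e1, e2, e3⟩ | ⟨e1, e2, e3⟩ | ⟨e1, e2, e3⟩)
      · exact hr.E1 t' ht' t'' ht'' e1 e2 (cv_eq_iff.1 e3)
      · exact hr.C1 t' ht' t'' ht'' k e1 e2 hk (cv_eq_iff.1 e3)
      · exact e3 (by rw [hr.S1 t' ht' t'' ht'' e1 e2]; rfl)
      · exact hr.M1 t' ht' t'' ht'' e1 e2 (cv_eq_iff.1 e3)
    · rw [extL_zz]; simp [F0]
    · -- t, z, t''
      rw [extL_xz _ _ _ (ne t ht), extL_zy _ _ _ (ne t'' ht''),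
        extL_xy _ _ _ (ne t'' ht'') (ne t ht)]
      rintro (⟨e1, e2, e3⟩ | ⟨k, hk, e1, e2, e3⟩ | ⟨e1, e2, e3⟩ | ⟨e1, e2, e3⟩)
      · exact hr.E3 t'' ht'' t ht (cv_eq_iff.1 e1) e2 e3
      · exact hr.C3 t'' ht'' t ht k (cv_eq_iff.1 e1) e2 hk e3
      · exact e3 (hr.S3 t'' ht'' t ht (cv_eq_iff.1 e1) e2)
      · exact hr.M3 t'' ht'' t ht (cv_eq_iff.1 e1) e2 e3
    · -- t, t', z
      rw [extL_xy _ _ _ (ne t ht) (ne t' ht'), extL_xz _ _ _ (ne t' ht'),
        extL_zy _ _ _ (ne t ht)]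
      rintro (⟨e1, e2, e3⟩ | ⟨k, hk, e1, e2, e3⟩ | ⟨e1, e2, e3⟩ | ⟨e1, e2, e3⟩)
      · exact hr.E1 t' ht' t ht (cv_eq_iff.1 e2) (h.sym_eq ht ht' e1) e3
      · exact hr.C1 t' ht' t ht k (cv_eq_iff.1 e2) (h.sym_eq ht ht' e1) hk e3
      · exact e3 (hr.S2 t ht t' ht' e1 (cv_eq_iff.1 e2))
      · exact hr.M2 t ht t' ht' e1 (cv_eq_iff.1 e2) e3
    · rw [extL_xy _ _ _ (ne t ht) (ne t' ht'), extL_xy _ _ _ (ne t' ht') (ne t'' ht''),
        extL_xy _ _ _ (ne t'' ht'') (ne t ht)]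
      exact h.nf t ht t' ht' t'' ht''

open Classical in
/-- default labels from a new node of sort `σ` -/
noncomputable def dflt (γ : K) (l : V → V → At K) (P : Set V) (pr : V → At K) (σ : Srt) (t : V) :
    At K :=
  match σ, src (l t t) with
  | .X, .X => f
  | .X, .Y => a γ
  | .X, .O => u
  | .Y, .X => a' γ
  | .Y, .Y => if ∃ v ∈ P, pr v = b ∧ l v t = b then b else d
  | .Y, .O => if ∃ v ∈ P, pr v = R' ∧ l v t = s then R' else N'
  | .O, .X => u'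
  | .O, .Y => if ∃ v ∈ P, pr v = s' ∧ l v t = R then R else N
  | .O, .O => if ∃ v ∈ P, pr v = s ∧ l v t = s then s
      else if ∃ v ∈ P, pr v = s' ∧ l v t = s' then s' else p

open Classical in
noncomputable def row (γ : K) (l : V → V → At K) (P : Set V) (pr : V → At K) (σ : Srt) (t : V) :
    At K :=
  if t ∈ P then pr t else dflt γ l P pr σ t

section rowlemmas

variable {γ : K} {l : V → V → At K} {P : Set V} {pr : V → At K} {σ : Srt}

lemma row_mem {t : V} (ht : t ∈ P) : row γ l P pr σ t = pr t := by simp [row, ht]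
lemma row_nmem {t : V} (ht : t ∉ P) : row γ l P pr σ t = dflt γ l P pr σ t := by simp [row, ht]

lemma dflt_src (t : V) : src (dflt γ l P pr σ t) = σ := by
  unfold dflt
  split <;> (try split_ifs) <;> rfl

lemma dflt_tgt (t : V) : tgt (dflt γ l P pr σ t) = src (l t t) := by
  unfold dflt
  split <;> (try split_ifs) <;> simp_all [tgt]

lemma dflt_ni (t : V) (τ : Srt) : dflt γ l P pr σ t ≠ i τ := by
  unfold dflt
  split <;> (try split_ifs) <;> simp

lemma dflt_b {t : V} (h : dflt γ l P pr σ t = b) : ∃ v ∈ P, pr v = b ∧ l v t = b := by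
  unfold dflt at h
  split at h <;> (try split_ifs at h) <;> first | assumption | cases h

lemma dflt_R' {t : V} (h : dflt γ l P pr σ t = R') : ∃ v ∈ P, pr v = R' ∧ l v t = s := by
  unfold dflt at h
  split at h <;> (try split_ifs at h) <;> first | assumption | cases h

lemma dflt_R {t : V} (h : dflt γ l P pr σ t = R) : ∃ v ∈ P, pr v = s' ∧ l v t = R := by
  unfold dflt at h
  split at h <;> (try split_ifs at h) <;> first | assumption | cases h

lemma dflt_s {t : V} (h : dflt γ l P pr σ t = s) : ∃ v ∈ P, pr v = s ∧ l v t = s := by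
  unfold dflt at h
  split at h <;> (try split_ifs at h) <;> first | assumption | cases h

lemma dflt_s' {t : V} (h : dflt γ l P pr σ t = s') : ∃ v ∈ P, pr v = s' ∧ l v t = s' := by
  unfold dflt at h
  split at h <;> (try split_ifs at h) <;> first | assumption | cases h

lemma dflt_a {t : V} {k : K} (h : dflt γ l P pr σ t = a k) : γ = k := by
  unfold dflt at h
  split at h <;> (try split_ifs at h) <;> first | cases h; rfl | cases h

lemma dflt_a' {t : V} {k : K} (h : dflt γ l P pr σ t = a' k) : γ = k := by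
  unfold dflt at h
  split at h <;> (try split_ifs at h) <;> first | cases h; rfl | cases h

lemma dflt_eq_b {t : V} (h1 : σ = .Y) (h2 : src (l t t) = .Y)
    (h : ∃ v ∈ P, pr v = b ∧ l v t = b) : dflt γ l P pr σ t = b := by
  subst h1; unfold dflt; rw [h2]; exact if_pos h

lemma dflt_eq_R' {t : V} (h1 : σ = .Y) (h2 : src (l t t) = .O)
    (h : ∃ v ∈ P, pr v = R' ∧ l v t = s) : dflt γ l P pr σ t = R' := by
  subst h1; unfold dflt; rw [h2]; exact if_pos h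

lemma dflt_eq_R {t : V} (h1 : σ = .O) (h2 : src (l t t) = .Y)
    (h : ∃ v ∈ P, pr v = s' ∧ l v t = R) : dflt γ l P pr σ t = R := by
  subst h1; unfold dflt; rw [h2]; exact if_pos h

lemma dflt_eq_s {t : V} (h1 : σ = .O) (h2 : src (l t t) = .O)
    (h : ∃ v ∈ P, pr v = s ∧ l v t = s) : dflt γ l P pr σ t = s := by
  subst h1; unfold dflt; rw [h2]; exact if_pos h

lemma dflt_eq_s' {t : V} (h1 : σ = .O) (h2 : src (l t t) = .O)
    (h0 : ¬ ∃ v ∈ P, pr v = s ∧ l v t = s)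
    (h : ∃ v ∈ P, pr v = s' ∧ l v t = s') : dflt γ l P pr σ t = s' := by
  subst h1; unfold dflt; rw [h2]; exact (if_neg h0).trans (if_pos h)

end rowlemmas

lemma rowOK_row {G : K → Prop} {D : Set V} {l : V → V → At K} (h : Good G D l) {γ : K}
    (hγ : ¬ G γ) {P : Set V} (hP : P ⊆ D) {σ : Srt} {pr : V → At K} (hp : RowOK G P l σ pr)
    (NW : ∀ t ∈ P, ∀ v ∈ P, ∀ t' ∈ D, ∀ k, pr t = a' k → pr v = b → l t t' = a k →
      l v t' = b → False) :
    RowOK G D l σ (row γ l P pr σ) := by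
  set r := row γ l P pr σ with hr
  have rs : ∀ t ∈ D, src (r t) = σ := by
    intro t _
    by_cases e : t ∈ P
    · rw [hr, row_mem e]; exact hp.rs t e
    · rw [hr, row_nmem e]; exact dflt_src t
  have rt : ∀ t ∈ D, tgt (r t) = src (l t t) := by
    intro t _
    by_cases e : t ∈ P
    · rw [hr, row_mem e]; exact hp.rt t e
    · rw [hr, row_nmem e]; exact dflt_tgt t
  have ni : ∀ t ∈ D, ∀ τ, r t ≠ i τ := by
    intro t _ τ
    by_cases e : t ∈ P
    · rw [hr, row_mem e]; exact hp.ni t e τ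
    · rw [hr, row_nmem e]; exact dflt_ni t τ
  -- characterisations
  have bF : ∀ t, r t = b → ∃ v ∈ P, pr v = b ∧ (v = t ∨ l v t = b) := by
    intro t e
    by_cases hm : t ∈ P
    · rw [hr, row_mem hm] at e; exact ⟨t, hm, e, Or.inl rfl⟩
    · rw [hr, row_nmem hm] at e
      obtain ⟨v, hv, e1, e2⟩ := dflt_b e
      exact ⟨v, hv, e1, Or.inr e2⟩
  have bB : ∀ t ∈ D, ∀ v ∈ P, pr v = b → (v = t ∨ l v t = b) → r t = b := by
    rintro t ht v hv e1 (rfl | e2)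
    · rw [hr, row_mem hv]; exact e1
    · have hσ : σ = .Y := by rw [← hp.rs v hv, e1]; rfl
      have hs : src (l t t) = .Y := by rw [← h.htgt (hP hv) ht, e2]; rfl
      by_cases hm : t ∈ P
      · rw [hr, row_mem hm]
        exact eq_b (by rw [hp.rs t hm, hσ]) (by rw [hp.rt t hm, hs]) (hp.ni t hm)
          (hp.E1 v hv t hm e1 e2)
      · rw [hr, row_nmem hm]; exact dflt_eq_b hσ hs ⟨v, hv, e1, e2⟩
  have sF : ∀ t, r t = s → ∃ v ∈ P, pr v = s ∧ (v = t ∨ l v t = s) := by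
    intro t e
    by_cases hm : t ∈ P
    · rw [hr, row_mem hm] at e; exact ⟨t, hm, e, Or.inl rfl⟩
    · rw [hr, row_nmem hm] at e
      obtain ⟨v, hv, e1, e2⟩ := dflt_s e
      exact ⟨v, hv, e1, Or.inr e2⟩
  have sB : ∀ t ∈ D, ∀ v ∈ P, pr v = s → l v t = s → r t = s := by
    rintro t ht v hv e1 e2
    have hσ : σ = .O := by rw [← hp.rs v hv, e1]; rfl
    have hs : src (l t t) = .O := by rw [← h.htgt (hP hv) ht, e2]; rfl
    by_cases hm : t ∈ P
    · rw [hr, row_mem hm]; exact hp.S1 v hv t hm e1 e2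
    · rw [hr, row_nmem hm]; exact dflt_eq_s hσ hs ⟨v, hv, e1, e2⟩
  have s'F : ∀ t, r t = s' → ∃ v ∈ P, pr v = s' ∧ (v = t ∨ l v t = s') := by
    intro t e
    by_cases hm : t ∈ P
    · rw [hr, row_mem hm] at e; exact ⟨t, hm, e, Or.inl rfl⟩
    · rw [hr, row_nmem hm] at e
      obtain ⟨v, hv, e1, e2⟩ := dflt_s' e
      exact ⟨v, hv, e1, Or.inr e2⟩
  have s'B : ∀ t ∈ D, ∀ v ∈ P, pr v = s' → l v t = s' → r t = s' := by
    rintro t ht v hv e1 e2
    have hσ : σ = .O := by rw [← hp.rs v hv, e1]; rfl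
    have hs : src (l t t) = .O := by rw [← h.htgt (hP hv) ht, e2]; rfl
    have e3 : l t v = s := h.sym_eq (hP hv) ht e2
    by_cases hm : t ∈ P
    · rw [hr, row_mem hm]; exact hp.S2 t hm v hv e3 e1
    · rw [hr, row_nmem hm]
      refine dflt_eq_s' hσ hs ?_ ⟨v, hv, e1, e2⟩
      rintro ⟨v', hv', e4, e5⟩
      have e6 := h.s_trans (hP hv') ht (hP hv) e5 e3
      have e7 := hp.S3 v' hv' v hv e1 e4
      rw [e6] at e7; cases e7
  have R'F : ∀ t, r t = R' → ∃ v ∈ P, pr v = R' ∧ (v = t ∨ l v t = s) := by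
    intro t e
    by_cases hm : t ∈ P
    · rw [hr, row_mem hm] at e; exact ⟨t, hm, e, Or.inl rfl⟩
    · rw [hr, row_nmem hm] at e
      obtain ⟨v, hv, e1, e2⟩ := dflt_R' e
      exact ⟨v, hv, e1, Or.inr e2⟩
  have R'B : ∀ t ∈ D, ∀ v ∈ P, pr v = R' → l v t = s → r t = R' := by
    rintro t ht v hv e1 e2
    have hσ : σ = .Y := by rw [← hp.rs v hv, e1]; rfl
    have hs : src (l t t) = .O := by rw [← h.htgt (hP hv) ht, e2]; rfl
    by_cases hm : t ∈ P
    · rw [hr, row_mem hm]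
      exact eq_R' (by rw [hp.rs t hm, hσ]) (by rw [hp.rt t hm, hs])
        (hp.M2 t hm v hv (h.sym_eq (hP hv) ht e2) e1)
    · rw [hr, row_nmem hm]; exact dflt_eq_R' hσ hs ⟨v, hv, e1, e2⟩
  have RF : ∀ t, r t = R → (t ∈ P ∧ pr t = R) ∨ ∃ v ∈ P, pr v = s' ∧ l v t = R := by
    intro t e
    by_cases hm : t ∈ P
    · rw [hr, row_mem hm] at e; exact Or.inl ⟨hm, e⟩
    · rw [hr, row_nmem hm] at e; exact Or.inr (dflt_R e)
  have RB : ∀ t ∈ D, ∀ v ∈ P, pr v = s' → l v t = R → r t = R := by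
    rintro t ht v hv e1 e2
    have hσ : σ = .O := by rw [← hp.rs v hv, e1]; rfl
    have hs : src (l t t) = .Y := by rw [← h.htgt (hP hv) ht, e2]; rfl
    by_cases hm : t ∈ P
    · rw [hr, row_mem hm]
      exact eq_R (by rw [hp.rs t hm, hσ]) (by rw [hp.rt t hm, hs]) (hp.M1 v hv t hm e1 e2)
    · rw [hr, row_nmem hm]; exact dflt_eq_R hσ hs ⟨v, hv, e1, e2⟩
  have aF : ∀ t k, r t = a k → G k → t ∈ P ∧ pr t = a k := by
    intro t k e hk
    by_cases hm : t ∈ P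
    · rw [hr, row_mem hm] at e; exact ⟨hm, e⟩
    · rw [hr, row_nmem hm] at e; exact absurd (dflt_a e ▸ hk) hγ
  have a'F : ∀ t k, r t = a' k → G k → t ∈ P ∧ pr t = a' k := by
    intro t k e hk
    by_cases hm : t ∈ P
    · rw [hr, row_mem hm] at e; exact ⟨hm, e⟩
    · rw [hr, row_nmem hm] at e; exact absurd (dflt_a' e ▸ hk) hγ
  -- the equivalence relation on points
  have Etr : ∀ x ∈ D, ∀ y ∈ D, ∀ w ∈ D, (x = y ∨ l x y = b) → (y = w ∨ l y w = b) →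
      (x = w ∨ l x w = b) := by
    rintro x hx y hy w hw (rfl | e1) e2
    · exact e2
    · rcases e2 with rfl | e2
      · exact Or.inr e1
      · exact h.b_trans hx hy hw e1 e2
  have Esy : ∀ x ∈ D, ∀ y ∈ D, (x = y ∨ l x y = b) → (y = x ∨ l y x = b) := by
    rintro x hx y hy (rfl | e1)
    · exact Or.inl rfl
    · exact Or.inr (h.sym_eq hx hy e1)
  refine ⟨rs, rt, ni, ?_, ?_, ?_, ?_, ?_, ?_, ?_, ?_, ?_, ?_⟩
  · intro t ht t' ht' e1 e2
    obtain ⟨v, hv, e3, e4⟩ := bF t e1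
    rw [bB t' ht' v hv e3 (Etr v (hP hv) t ht t' ht' e4 (Or.inr e2))]
    simp
  · intro t ht t' ht' k e1 e2 hk e3
    obtain ⟨hm, e4⟩ := a'F t k e1 hk
    obtain ⟨v, hv, e5, rfl | e6⟩ := bF t' e3
    · exact hp.C1 t hm v hv k e4 e2 hk e5
    · exact NW t hm v hv t' ht' k e4 e5 e2 e6
  · intro t ht t' ht' e1 e2
    obtain ⟨v, hv, e3, rfl | e4⟩ := sF t e1
    · exact sB t' ht' v hv e3 e2
    · exact sB t' ht' v hv e3 (h.s_trans (hP hv) ht ht' e4 e2)
  · intro t ht t' ht' e1 e2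
    obtain ⟨v, hv, e3, rfl | e4⟩ := s'F t e1
    · rw [RB t' ht' v hv e3 e2]; simp
    · rw [RB t' ht' v hv e3 (h.R_mono (hP hv) ht ht' e4 e2)]; simp
  · intro t ht t' ht' e1 e2
    have e0 : l t' t = s' := h.sym_eq ht ht' e1
    obtain ⟨v, hv, e3, rfl | e4⟩ := s'F t' e2
    · exact s'B t ht v hv e3 e0
    · exact s'B t ht v hv e3 (h.s'_trans (hP hv) ht' ht e4 e0)
  · intro t ht t' ht' e1 e2
    have e0 : l t' t = s := h.sym_eq ht ht' e1
    obtain ⟨v, hv, e3, rfl | e4⟩ := R'F t' e2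
    · rw [R'B t ht v hv e3 e0]; simp
    · rw [R'B t ht v hv e3 (h.s_trans (hP hv) ht' ht e4 e0)]; simp
  · intro t ht t' ht' e1 e2 e3
    obtain ⟨v', hv', e4, e5⟩ := bF t' e1
    obtain ⟨v, hv, e6, e7⟩ := bF t e2
    have hvv : v = v' ∨ l v v' = b := by
      by_cases e : v = v'
      · exact Or.inl e
      · right
        apply eq_b
        · rw [h.hsrc v (hP hv) v' (hP hv'), ← hp.rt v hv, e6]; rfl
        · rw [h.htgt (hP hv) (hP hv'), ← hp.rt v' hv', e4]; rfl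
        · exact fun τ hτ => e (h.nid v (hP hv) v' (hP hv') τ hτ)
        · exact hp.E3 v hv v' hv' e4 e6
    have := Etr t ht v' (hP hv') t' ht'
      (Etr t ht v (hP hv) v' (hP hv') (Esy v (hP hv) t ht e7) hvv) e5
    rcases this with rfl | e8
    · obtain ⟨τ, hτ⟩ := h.diag t ht
      rw [hτ] at e3; cases e3
    · rw [e8] at e3; cases e3
  · intro t ht t' ht' k e1 e2 hk
    obtain ⟨hm', e3⟩ := aF t' k e1 hk
    obtain ⟨hm, e4⟩ := aF t k e2 hk
    exact hp.C3 t hm t' hm' k e3 e4 hk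
  · intro t ht t' ht' e1 e2
    obtain ⟨v', hv', e3, e4⟩ := s'F t' e1
    obtain ⟨v, hv, e5, e6⟩ := sF t e2
    have e7 : l v v' = s' := hp.S3 v hv v' hv' e3 e5
    have e8 : l v t' = s' := by
      rcases e4 with rfl | e4
      · exact e7
      · exact h.s'_trans (hP hv) (hP hv') ht' e7 e4
    rcases e6 with rfl | e6
    · exact e8
    · exact h.s'_trans ht (hP hv) ht' (h.sym_eq (hP hv) ht e6) e8
  · intro t ht t' ht' e1 e2
    obtain ⟨v', hv', e3, e4⟩ := sF t' e1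
    have e5 : l v' t = R := by
      rcases RF t e2 with ⟨hm, e6⟩ | ⟨v, hv, e6, e7⟩
      · apply eq_R
        · rw [h.hsrc v' (hP hv') t ht, ← hp.rt v' hv', e3]; rfl
        · rw [h.htgt (hP hv') ht, ← hp.rt t hm, e6]; rfl
        · intro hN
          exact hp.M3 t hm v' hv' e3 e6 (h.sym_eq (hP hv') ht hN)
      · exact h.R_mono (hP hv') (hP hv) ht (hp.S3 v' hv' v hv e6 e3) e7
    have e8 : l t' t = R := by
      rcases e4 with rfl | e4
      · exact e5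
      · exact h.R_mono ht' (hP hv') ht (h.sym_eq (hP hv') ht' e4) e5
    rw [h.sym_eq ht' ht e8]; simp [cv]

end Pool.Agent.H501Z.WRRA
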